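import Pool.Agent.Lib.Pe46137T.Tri

/-!
# Oriented graphs: the hard side

If some component of `H` is contained neither in the directed path with four vertices nor in
`2 ← 1 ← 0 → 1' → 2'` nor in the reversal of the latter then reachability on all finite digraphs
reduces to reachability on the oriented graphs without an induced copy of `H`.
-/

namespace Pool.Agent.Lib.Pe46137T

open Pool.Agent.Lib.Pe46137h7 Pool.Agent.Lib.Pe46137i Pool.Agent.Lib.Pe46137h9

/-- The disjoint union of infinitely many copies of each of three digraphs: the directed path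
with vertices `0, 1, 2, 3` (first component `0`), the path with vertices `-2, -1, 0, 1, 2` whose
arcs lead away from `0` (first component `1`), its reversal (first component `2`). -/
def Small (x y : Fin 3 × ℕ × ℤ) : Prop :=
  x.1 = y.1 ∧ x.2.1 = y.2.1 ∧
    ((x.1 = 0 ∧ 0 ≤ x.2.2 ∧ y.2.2 = x.2.2 + 1 ∧ y.2.2 ≤ 3) ∨
      (x.1 = 1 ∧ ZigArc x.2.2 y.2.2 ∧ -2 ≤ y.2.2 ∧ y.2.2 ≤ 2) ∨
      (x.1 = 2 ∧ ZigArc y.2.2 x.2.2 ∧ -2 ≤ x.2.2 ∧ x.2.2 ≤ 2))

section

variable {h : ℕ} {H : Fin h → Fin h → Prop} (f : Fin h → Bool × ℕ × ℤ)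

/-- The arcs of the component with sign `b`. -/
def Dir (b : Bool) (x y : ℤ) : Prop := (b = true ∧ ZigArc x y) ∨ (b = false ∧ ZigArc y x)

/-- The vertices at the places `z` and `z + 1` of the component `c` are adjacent. -/
def Link (H : Fin h → Fin h → Prop) (c : Bool × ℕ) (z : ℤ) : Prop :=
  ∃ i j, f i = (c.1, c.2, z) ∧ f j = (c.1, c.2, z + 1) ∧ (H i j ∨ H j i)

theorem dir_iff (b : Bool) (x y : ℤ) : Dir b x y ↔
    ((b = true ∧ 0 ≤ x ∨ b = false ∧ x < 0) ∧ y = x + 1) ∨
    ((b = true ∧ y < 0 ∨ b = false ∧ 0 ≤ y) ∧ x = y + 1) := by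
  unfold Dir ZigArc
  cases b <;> simp <;> omega

theorem zig_dir {i j : Fin h} (hz : Zig (f i) (f j)) :
    (f i).1 = (f j).1 ∧ (f i).2.1 = (f j).2.1 ∧ Dir (f i).1 (f i).2.2 (f j).2.2 := by
  obtain ⟨h1, h2, h3⟩ := hz
  refine ⟨h1, h2, ?_⟩
  rcases h3 with ⟨h3, h4⟩ | ⟨h3, h4⟩
  · exact Or.inl ⟨h3, h4⟩
  · exact Or.inr ⟨h3, h4⟩

variable {f}

/-- Five consecutive vertices. -/
theorem window (hinj : Function.Injective f) (hf : ∀ i j, Irr H i j → Zig (f i) (f j))
    {c : Bool × ℕ} {l : ℤ} (hl : ∀ t : ℕ, t < 4 → Link f H c (l + t)) :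
    ∃ v : Fin 5 → Fin h, Function.Injective v ∧
      ∀ a b : Fin 5, a ≠ b → (H (v a) (v b) ↔ Dir c.1 (l + a.val) (l + b.val)) := by
  have hv : ∀ a : Fin 5, ∃ i, f i = (c.1, c.2, l + a.val) := by
    intro a
    rcases Nat.lt_or_ge a.val 4 with h | h
    · obtain ⟨i, _, hi, _⟩ := hl a.val h
      exact ⟨i, hi⟩
    · obtain ⟨_, j, _, hj, _⟩ := hl 3 (by norm_num)
      refine ⟨j, ?_⟩
      rw [hj]
      have : a.val = 4 := by omega
      rw [this]
      simp [add_assoc]
  choose v hv using hv
  refine ⟨v, ?_, ?_⟩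
  · intro a b hab
    have h1 := hv a
    rw [hab, hv b] at h1
    simp only [Prod.mk.injEq, true_and] at h1
    exact Fin.ext (by omega)
  · intro a b hab
    constructor
    · intro h1
      have h2 : v a ≠ v b := by
        intro e
        have h3 := hv a
        rw [e, hv b] at h3
        simp only [Prod.mk.injEq, true_and] at h3
        exact hab (Fin.ext (by omega))
      have h3 := (zig_dir f (hf _ _ ⟨h1, h2⟩)).2.2
      rw [hv a, hv b] at h3
      exact h3
    · intro h1
      -- the two places are consecutive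
      have key : ∀ a b : Fin 5, b.val = a.val + 1 → H (v a) (v b) ∨ H (v b) (v a) := by
        intro a b hab
        obtain ⟨i, j, hi, hj, hij⟩ := hl a.val (by omega)
        have e1 : i = v a := hinj (by rw [hi, hv a])
        have e2 : j = v b := hinj (by rw [hj, hv b, hab]; simp [add_assoc])
        rw [e1, e2] at hij
        exact hij
      have back : ∀ a b : Fin 5, a ≠ b → H (v a) (v b) → Dir c.1 (l + a.val) (l + b.val) := by
        intro a b hab h1
        have h2 : v a ≠ v b := by
          intro e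
          have h3 := hv a
          rw [e, hv b] at h3
          simp only [Prod.mk.injEq, true_and] at h3
          exact hab (Fin.ext (by omega))
        have h3 := (zig_dir f (hf _ _ ⟨h1, h2⟩)).2.2
        rw [hv a, hv b] at h3
        exact h3
      have h2 := (dir_iff _ _ _).1 h1
      have h3 : b.val = a.val + 1 ∨ a.val = b.val + 1 := by omega
      have h4 : H (v a) (v b) ∨ H (v b) (v a) := by
        rcases h3 with h3 | h3
        · exact key a b h3
        · exact (key b a h3).symm
      rcases h4 with h4 | h4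
      · exact h4
      · have h5 := (dir_iff _ _ _).1 (back b a hab.symm h4)
        exfalso
        rcases Bool.eq_false_or_eq_true c.1 with hb | hb <;>
          simp only [hb, true_and, false_and, or_false, false_or, reduceCtorEq] at h2 h5 <;> omega

/-- Four consecutive links start at the place `-2`. -/
theorem window_eq (hinj : Function.Injective f) (hf : ∀ i j, Irr H i j → Zig (f i) (f j))
    (h5 : ¬ HasInd P5 H) (hO : ¬ HasInd O31 H) (hI : ¬ HasInd I31 H)
    {c : Bool × ℕ} {l : ℤ} (hl : ∀ t : ℕ, t < 4 → Link f H c (l + t)) : l = -2 := by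
  obtain ⟨v, hv, hd⟩ := window hinj hf hl
  by_contra hne
  have hrev : Function.Injective fun a : Fin 5 => v (Fin.rev a) :=
    hv.comp Fin.rev_injective
  rcases (by omega : 0 ≤ l ∨ l ≤ -4 ∨ l = -1 ∨ l = -3) with h | h | h | h
  · rcases Bool.eq_false_or_eq_true c.1 with hb | hb
    · exact h5 ⟨v, hv, fun i j hij => by
        rw [hd i j hij, dir_iff, hb]; unfold P5; simp; omega⟩
    · exact h5 ⟨_, hrev, fun i j hij => by
        rw [hd _ _ (fun e => hij (Fin.rev_injective e)), dir_iff, hb]
        unfold P5; simp [Fin.val_rev]; omega⟩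
  · rcases Bool.eq_false_or_eq_true c.1 with hb | hb
    · exact h5 ⟨_, hrev, fun i j hij => by
        rw [hd _ _ (fun e => hij (Fin.rev_injective e)), dir_iff, hb]
        unfold P5; simp [Fin.val_rev]; omega⟩
    · exact h5 ⟨v, hv, fun i j hij => by
        rw [hd i j hij, dir_iff, hb]; unfold P5; simp; omega⟩
  · -- places -1, 0, 1, 2, 3
    have hσ : Function.Injective fun a : Fin 5 => v (![1, 2, 3, 4, 0] a) :=
      hv.comp (by decide)
    have hne' : ∀ i j : Fin 5, i ≠ j → (![1, 2, 3, 4, 0] i : Fin 5) ≠ ![1, 2, 3, 4, 0] j := by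
      decide
    rcases Bool.eq_false_or_eq_true c.1 with hb | hb
    · exact hO ⟨_, hσ, fun i j hij => by
        rw [hd _ _ (hne' i j hij), dir_iff, hb, h]
        unfold O31
        fin_cases i <;> fin_cases j <;> simp⟩
    · exact hI ⟨_, hσ, fun i j hij => by
        rw [hd _ _ (hne' i j hij), dir_iff, hb, h]
        unfold I31 O31
        fin_cases i <;> fin_cases j <;> simp⟩
  · -- places -3, -2, -1, 0, 1
    have hσ : Function.Injective fun a : Fin 5 => v (![3, 2, 1, 0, 4] a) :=
      hv.comp (by decide)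
    have hne' : ∀ i j : Fin 5, i ≠ j → (![3, 2, 1, 0, 4] i : Fin 5) ≠ ![3, 2, 1, 0, 4] j := by
      decide
    rcases Bool.eq_false_or_eq_true c.1 with hb | hb
    · exact hO ⟨_, hσ, fun i j hij => by
        rw [hd _ _ (hne' i j hij), dir_iff, hb, h]
        unfold O31
        fin_cases i <;> fin_cases j <;> simp⟩
    · exact hI ⟨_, hσ, fun i j hij => by
        rw [hd _ _ (hne' i j hij), dir_iff, hb, h]
        unfold I31 O31
        fin_cases i <;> fin_cases j <;> simp⟩

/-- The number, at most four, of consecutive links to the left of the place `z`. -/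
noncomputable def back (f : Fin h → Bool × ℕ × ℤ) (H : Fin h → Fin h → Prop) (c : Bool × ℕ)
    (z : ℤ) : ℕ :=
  open Classical in Nat.findGreatest (fun k => ∀ t : ℕ, t < k → Link f H c (z - 1 - t)) 4

theorem back_spec (c : Bool × ℕ) (z : ℤ) {t : ℕ} (ht : t < back f H c z) :
    Link f H c (z - 1 - t) := by
  classical
  have := @Nat.findGreatest_spec 0 (fun k => ∀ t : ℕ, t < k → Link f H c (z - 1 - t)) _ 4
    (Nat.zero_le _) (fun t ht => absurd ht (Nat.not_lt_zero t))
  exact this t (by unfold back at ht; convert ht)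

theorem back_le (c : Bool × ℕ) (z : ℤ) : back f H c z ≤ 4 := by
  classical
  unfold back
  exact Nat.findGreatest_le 4

theorem le_back {c : Bool × ℕ} {z : ℤ} {k : ℕ} (hk : k ≤ 4)
    (h : ∀ t : ℕ, t < k → Link f H c (z - 1 - t)) : k ≤ back f H c z := by
  classical
  unfold back
  exact Nat.le_findGreatest hk h

/-- The first place of the run of the place `z`. -/
noncomputable def lft (f : Fin h → Bool × ℕ × ℤ) (H : Fin h → Fin h → Prop) (c : Bool × ℕ)
    (z : ℤ) : ℤ := z - back f H c z

/-- All places from `lft z` up to `z - 1` are links. -/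
theorem link_of_lft {c : Bool × ℕ} {z y : ℤ} (h1 : lft f H c z ≤ y) (h2 : y < z) :
    Link f H c y := by
  unfold lft at h1
  have h3 := back_spec (f := f) (H := H) c z (t := (z - 1 - y).toNat) (by omega)
  rwa [show z - 1 - ((z - 1 - y).toNat : ℤ) = y by omega] at h3

theorem lft_le (c : Bool × ℕ) (z : ℤ) : lft f H c z ≤ z := by
  unfold lft; omega

theorem le_lft (c : Bool × ℕ) (z : ℤ) : z - 4 ≤ lft f H c z := by
  have := back_le (f := f) (H := H) c z
  unfold lft; omega

/-- The run crosses the place `0`. -/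
def Cross (f : Fin h → Bool × ℕ × ℤ) (H : Fin h → Fin h → Prop) (c : Bool × ℕ) (l : ℤ) : Prop :=
  l < 0 ∧ ∀ y : ℤ, l ≤ y → y ≤ 0 → Link f H c y

/-- Along a link the first place of the run does not change. -/
theorem lft_succ (hw : ∀ (c : Bool × ℕ) (l : ℤ), (∀ t : ℕ, t < 4 → Link f H c (l + t)) → l = -2)
    {c : Bool × ℕ} {z : ℤ} (hz : Link f H c z) : lft f H c (z + 1) = lft f H c z := by
  have h0 := back_le (f := f) (H := H) c z
  have h1 : back f H c z ≠ 4 := by
    intro h4
    have e1 := hw c (z - 4) (fun t ht => by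
      have := back_spec (f := f) (H := H) c z (t := 3 - t) (by omega)
      rwa [show z - 1 - ((3 - t : ℕ) : ℤ) = z - 4 + t by omega] at this)
    have e2 := hw c (z - 3) (fun t ht => by
      rcases Nat.lt_or_ge t 3 with h | h
      · have := back_spec (f := f) (H := H) c z (t := 2 - t) (by omega)
        rwa [show z - 1 - ((2 - t : ℕ) : ℤ) = z - 3 + t by omega] at this
      · rwa [show z - 3 + (t : ℤ) = z by omega])
    omega
  have h2 : back f H c z + 1 ≤ back f H c (z + 1) := by
    apply le_back (by omega)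
    intro t ht
    rcases Nat.eq_zero_or_pos t with h | h
    · rw [h, show z + 1 - 1 - ((0 : ℕ) : ℤ) = z by simp]
      exact hz
    · have := back_spec (f := f) (H := H) c z (t := t - 1) (by omega)
      rwa [show z - 1 - ((t - 1 : ℕ) : ℤ) = z + 1 - 1 - t by omega] at this
  have h3 : back f H c (z + 1) ≤ back f H c z + 1 := by
    have h4 := back_le (f := f) (H := H) c (z + 1)
    have h5 : back f H c (z + 1) - 1 ≤ back f H c z := by
      apply le_back (by omega)
      intro t ht
      have := back_spec (f := f) (H := H) c (z + 1) (t := t + 1) (by omega)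
      rwa [show z + 1 - 1 - ((t + 1 : ℕ) : ℤ) = z - 1 - t by push_cast; ring] at this
    omega
  unfold lft
  omega

/-- The first component and the place of the image. -/
noncomputable def spot (f : Fin h → Bool × ℕ × ℤ) (H : Fin h → Fin h → Prop) (c : Bool × ℕ)
    (l z : ℤ) : Fin 3 × ℤ :=
  open Classical in
  if Cross f H c l then (if c.1 = true then 1 else 2, z)
  else (0, if (c.1 = true ∧ 0 ≤ l) ∨ (c.1 = false ∧ l < 0) then z - l else 3 - (z - l))

theorem spot_inj {c : Bool × ℕ} {l z z' : ℤ} (h : (spot f H c l z).2 = (spot f H c l z').2) :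
    z = z' := by
  unfold spot at h
  split_ifs at h <;> simp only at h <;> omega

/-- The images of two vertices joined by an arc. -/
theorem spot_arc (hw : ∀ (c : Bool × ℕ) (l : ℤ), (∀ t : ℕ, t < 4 → Link f H c (l + t)) → l = -2)
    {c : Bool × ℕ} {l x y : ℤ} (hx : lft f H c x = l) (hy : lft f H c y = l)
    (hd : Dir c.1 x y) :
    (spot f H c l x).1 = (spot f H c l y).1 ∧
    (((spot f H c l x).1 = 0 ∧ 0 ≤ (spot f H c l x).2 ∧
        (spot f H c l y).2 = (spot f H c l x).2 + 1 ∧ (spot f H c l y).2 ≤ 3) ∨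
      ((spot f H c l x).1 = 1 ∧ ZigArc (spot f H c l x).2 (spot f H c l y).2 ∧
        -2 ≤ (spot f H c l y).2 ∧ (spot f H c l y).2 ≤ 2) ∨
      ((spot f H c l x).1 = 2 ∧ ZigArc (spot f H c l y).2 (spot f H c l x).2 ∧
        -2 ≤ (spot f H c l x).2 ∧ (spot f H c l x).2 ≤ 2)) := by
  have x1 : l ≤ x := hx ▸ lft_le c x
  have y1 : l ≤ y := hy ▸ lft_le c y
  have x2 : x - 4 ≤ l := hx ▸ le_lft c x
  have y2 : y - 4 ≤ l := hy ▸ le_lft c y
  have lk : ∀ z, lft f H c z = l → ∀ u, l ≤ u → u < z → Link f H c u := fun z hz u h1 h2 =>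
    link_of_lft (hz ▸ h1) h2
  by_cases hc : Cross f H c l
  · have hsx : spot f H c l x = (if c.1 = true then 1 else 2, x) := by unfold spot; rw [if_pos hc]
    have hsy : spot f H c l y = (if c.1 = true then 1 else 2, y) := by unfold spot; rw [if_pos hc]
    obtain ⟨c1, c2⟩ := hc
    have l2 : -2 ≤ l := by
      by_contra h
      have := hw c (-3) (fun t ht => c2 _ (by omega) (by omega))
      omega
    have z2 : ∀ z, lft f H c z = l → z ≤ 2 := by
      intro z hz
      by_contra h
      have := hw c (-1) (fun t ht => lk z hz _ (by omega) (by omega))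
      omega
    have x3 := z2 x hx
    have y3 := z2 y hy
    rw [hsx, hsy]
    refine ⟨rfl, ?_⟩
    rcases hd with ⟨hb, hd⟩ | ⟨hb, hd⟩
    · refine Or.inr (Or.inl ⟨by simp [hb], hd, ?_, ?_⟩) <;> simp only <;> omega
    · refine Or.inr (Or.inr ⟨by simp [hb], hd, ?_, ?_⟩) <;> simp only <;> omega
  · have z3 : ∀ z, lft f H c z = l → l ≤ z → z - 4 ≤ l → z - l ≤ 3 := by
      intro z hz z1 z2
      by_contra h
      have h4 := hw c l (fun t ht => lk z hz _ (by omega) (by omega))
      exact hc ⟨by omega, fun u h1 h2 => lk z hz u h1 (by omega)⟩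
    have z4 : ∀ z, lft f H c z = l → l < 0 → z ≤ 0 := by
      intro z hz hl
      by_contra h
      exact hc ⟨hl, fun u h1 h2 => lk z hz u h1 (by omega)⟩
    have x3 := z3 x hx x1 x2
    have y3 := z3 y hy y1 y2
    have x4 := z4 x hx
    have y4 := z4 y hy
    have hd' := (dir_iff _ _ _).1 hd
    unfold spot
    rw [if_neg hc, if_neg hc]
    refine ⟨rfl, Or.inl ⟨rfl, ?_⟩⟩
    simp only
    rcases Bool.eq_false_or_eq_true c.1 with hb | hb
    · simp only [hb, true_and, false_and, or_false, false_or, reduceCtorEq] at hd' ⊢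
      split_ifs <;> omega
    · simp only [hb, true_and, false_and, or_false, false_or, reduceCtorEq] at hd' ⊢
      split_ifs <;> omega

/-- Without induced `P5`, `O31`, `I31` the components are small. -/
theorem small_of (hZ : HasSub (Irr H) Zig)
    (h5 : ¬ HasInd P5 H) (hO : ¬ HasInd O31 H) (hI : ¬ HasInd I31 H) :
    HasSub (Irr H) Small := by
  classical
  obtain ⟨f, hinj, hf⟩ := hZ
  have hw : ∀ (c : Bool × ℕ) (l : ℤ), (∀ t : ℕ, t < 4 → Link f H c (l + t)) → l = -2 :=
    fun c l hl => window_eq hinj hf h5 hO hI hl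
  let L : Fin h → ℤ := fun i => lft f H ((f i).1, (f i).2.1) (f i).2.2
  let S : Fin h → Fin 3 × ℤ := fun i => spot f H ((f i).1, (f i).2.1) (L i) (f i).2.2
  refine ⟨fun i => ((S i).1, Encodable.encode (((f i).1, (f i).2.1), L i), (S i).2), ?_, ?_⟩
  · intro i j hij
    simp only [Prod.mk.injEq] at hij
    obtain ⟨_, e2, e3⟩ := hij
    have e4 := Encodable.encode_injective e2
    obtain ⟨e5, e7⟩ := Prod.mk.inj e4
    have e8 : S j = spot f H ((f i).1, (f i).2.1) (L i) (f j).2.2 := by
      show spot f H ((f j).1, (f j).2.1) (L j) (f j).2.2 = _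
      rw [← e5, ← e7]
    have e9 : (S i).2 = (S j).2 := e3
    rw [e8] at e9
    have e10 := spot_inj e9
    obtain ⟨e11, e12⟩ := Prod.mk.inj e5
    exact hinj (Prod.ext e11 (Prod.ext e12 e10))
  · intro i j hij
    obtain ⟨z1, z2, z3⟩ := zig_dir f (hf i j hij)
    have hcc : ((f i).1, (f i).2.1) = ((f j).1, (f j).2.1) := by rw [z1, z2]
    have fi : f i = (((f i).1, (f i).2.1).1, ((f i).1, (f i).2.1).2, (f i).2.2) := rfl
    have fj : f j = (((f i).1, (f i).2.1).1, ((f i).1, (f i).2.1).2, (f j).2.2) := by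
      rw [hcc]
    -- both vertices have the same run
    have hL : L j = L i := by
      show lft f H ((f j).1, (f j).2.1) (f j).2.2 = lft f H ((f i).1, (f i).2.1) (f i).2.2
      rw [← hcc]
      rcases (dir_iff _ _ _).1 z3 with ⟨_, h2⟩ | ⟨_, h2⟩
      · have : Link f H ((f i).1, (f i).2.1) (f i).2.2 :=
          ⟨i, j, fi, by rw [fj, h2], Or.inl hij.1⟩
        rw [h2]
        exact lft_succ hw this
      · have : Link f H ((f i).1, (f i).2.1) (f j).2.2 :=
          ⟨j, i, fj, by rw [← h2], Or.inr hij.1⟩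
        rw [h2]
        exact (lft_succ hw this).symm
    have hy : lft f H ((f i).1, (f i).2.1) (f j).2.2 = L i := by
      rw [← hL]
      show _ = lft f H ((f j).1, (f j).2.1) (f j).2.2
      rw [hcc]
    have key := spot_arc hw (c := ((f i).1, (f i).2.1)) (l := L i) rfl hy z3
    have e8 : S j = spot f H ((f i).1, (f i).2.1) (L i) (f j).2.2 := by
      show spot f H ((f j).1, (f j).2.1) (L j) (f j).2.2 = _
      rw [← hcc, hL]
    have e9 : S i = spot f H ((f i).1, (f i).2.1) (L i) (f i).2.2 := rfl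
    rw [← e8, ← e9] at key
    refine ⟨key.1, ?_, key.2⟩
    show Encodable.encode (((f i).1, (f i).2.1), L i) =
      Encodable.encode (((f j).1, (f j).2.1), L j)
    rw [hcc, hL]

end

/-- An induced subdigraph of an induced subdigraph. -/
theorem HasInd.trans {a b : ℕ} {A : Fin a → Fin a → Prop} {B : Fin b → Fin b → Prop}
    (h1 : HasInd A B) {W : Type} {F : W → W → Prop} (h2 : HasInd B F) : HasInd A F := by
  obtain ⟨f, hf, hf'⟩ := h1
  obtain ⟨g, hg, hg'⟩ := h2
  exact ⟨g ∘ f, hg.comp hf, fun i j hij =>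
    (hf' i j hij).trans (hg' _ _ fun e => hij (hf e))⟩

/-- **Hardness for oriented graphs**: if some component of `H`, loops ignored, is contained
neither in the directed path with four vertices nor in `2 ← 1 ← 0 → 1' → 2'` nor in the reversal of
the latter then reachability on all finite digraphs reduces to reachability on finite oriented
graphs without an induced copy of `H`. -/
theorem oriented_hard {h : ℕ} {H : Fin h → Fin h → Prop} (hH : ¬ HasSub (Irr H) Small) :
    ∃ r : DReduction, r.Into fun _ F => Oriented F ∧ ¬ HasInd H F := by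
  by_cases hZ : HasSub (Irr H) Zig
  · refine ⟨tri, fun V _ _ E => ?_⟩
    obtain ⟨⟨h1, h2, h3, h4⟩, h5, h6, h7⟩ := tri_into V E
    refine ⟨⟨h1, fun h8 => hH (small_of hZ (fun h9 => h2 (HasInd.trans h9 h8))
      (fun h9 => h3 (HasInd.trans h9 h8)) fun h9 => h4 (HasInd.trans h9 h8))⟩, h5, h6, h7⟩
  · obtain ⟨r, hr⟩ := acyclic_hard hZ
    refine ⟨r, fun V _ _ E => ?_⟩
    obtain ⟨⟨h1, h2⟩, h3⟩ := hr V E
    exact ⟨⟨fun p q hp hq => h1 p (.tail (.single hp) hq), h2⟩, h3⟩

end Pool.Agent.Lib.Pe46137T
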