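import Pool.Agent.Lib.Pe46137i.ToD

/-!
# Oriented graphs: one gadget for all hard paths

Every vertex `v` becomes a directed triangle `in v → mid v → out v → in v`, and every arc `u → v`
becomes the arc `out u → in v`.  The output is an oriented graph without an induced directed path
with five vertices, without an induced `3 ← 2 ← 1 ← 0 → 4` and without its reversal.
-/

namespace Pool.Agent.Lib.Pe46137T

open Pool.Agent.Lib.Pe46137h7 Pool.Agent.Lib.Pe46137i Pool.Agent.Lib.Pe46137h9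

/-- The directed path with five vertices. -/
def P5 (i j : Fin 5) : Prop := j.val = i.val + 1

/-- The oriented path with vertices `3 ← 2 ← 1 ← 0 → 4`. -/
def O31 (i j : Fin 5) : Prop :=
  (i = 0 ∧ j = 1) ∨ (i = 1 ∧ j = 2) ∨ (i = 2 ∧ j = 3) ∨ (i = 0 ∧ j = 4)

/-- The reversal of `O31`. -/
def I31 (i j : Fin 5) : Prop := O31 j i

/-- The arc formulas: the copy `0` holds the first, `1` the second, `2` the third vertex of the
triangle. -/
def triArc : Fin 3 → Fin 3 → Fml OrdVoc (1 + 1)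
  | 0, 1 => .eq 0 1
  | 1, 2 => .eq 0 1
  | 2, 0 => .neg (.and (.neg (.eq 0 1)) (.neg (.rel .arc 0 1)))
  | _, _ => .neg (.eq 0 0)

/-- Every vertex becomes a directed triangle. -/
abbrev tri : DReduction where
  dim := 1
  copies := 3
  arc := triArc
  src := .eq 0 1
  tgt := .eq 0 1
  srcCopy := 0
  tgtCopy := 0
  arc_fo := by
    intro i j
    fin_cases i <;> fin_cases j <;> simp [triArc, Fml.FirstOrder]
  src_fo := by simp [Fml.FirstOrder]
  tgt_fo := by simp [Fml.FirstOrder]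

section

variable {V : Type} [LinearOrder V] {E : V → V → Prop}

theorem tri_out_iff (p q : Fin 3 × (Fin 1 → V)) : tri.out E p q ↔
    (p.1 = 0 ∧ q.1 = 1 ∧ p.2 0 = q.2 0) ∨ (p.1 = 1 ∧ q.1 = 2 ∧ p.2 0 = q.2 0) ∨
    (p.1 = 2 ∧ q.1 = 0 ∧ (p.2 0 = q.2 0 ∨ E (p.2 0) (q.2 0))) := by
  obtain ⟨i, a⟩ := p
  obtain ⟨j, b⟩ := q
  have h0 : (Fin.append a b : Fin (1 + 1) → V) 0 = a 0 := rfl
  have h1 : (Fin.append a b : Fin (1 + 1) → V) 1 = b 0 := rfl
  unfold DReduction.out
  fin_cases i <;> fin_cases j <;>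
    simp [triArc, Sat, ordStr, h0, h1]
  tauto

theorem tri_oriented : Oriented (tri.out E) := by
  intro p q h h'
  rw [tri_out_iff] at h h'
  rcases h with ⟨h1, h2, _⟩ | ⟨h1, h2, _⟩ | ⟨h1, h2, _⟩ <;>
    rcases h' with ⟨h3, h4, _⟩ | ⟨h3, h4, _⟩ | ⟨h3, h4, _⟩ <;> simp_all

/-- The number of the copy increases cyclically along arcs. -/
theorem tri_next {p q : Fin 3 × (Fin 1 → V)} (h : tri.out E p q) :
    (p.1 = 0 ∧ q.1 = 1) ∨ (p.1 = 1 ∧ q.1 = 2) ∨ (p.1 = 2 ∧ q.1 = 0) := by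
  rw [tri_out_iff] at h
  rcases h with ⟨h1, h2, _⟩ | ⟨h1, h2, _⟩ | ⟨h1, h2, _⟩
  · exact Or.inl ⟨h1, h2⟩
  · exact Or.inr (Or.inl ⟨h1, h2⟩)
  · exact Or.inr (Or.inr ⟨h1, h2⟩)

/-- Two consecutive arcs starting in the copy `0` are closed by a third one. -/
theorem tri_chord {p q r : Fin 3 × (Fin 1 → V)} (hp : p.1 = 0) (h1 : tri.out E p q)
    (h2 : tri.out E q r) : tri.out E r p := by
  rw [tri_out_iff] at h1 h2 ⊢
  rcases h1 with ⟨a1, a2, a3⟩ | ⟨a1, a2, a3⟩ | ⟨a1, a2, a3⟩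
  · rcases h2 with ⟨b1, b2, b3⟩ | ⟨b1, b2, b3⟩ | ⟨b1, b2, b3⟩
    · rw [a2] at b1; exact absurd b1 (by decide)
    · exact Or.inr (Or.inr ⟨b2, hp, Or.inl (a3.trans b3).symm⟩)
    · rw [a2] at b1; exact absurd b1 (by decide)
  · rw [hp] at a1; exact absurd a1 (by decide)
  · rw [hp] at a1; exact absurd a1 (by decide)

theorem tri_eq_out {p q r : Fin 3 × (Fin 1 → V)} (hp : p.1 = 1) (h1 : tri.out E p q)
    (h2 : tri.out E p r) : q = r := by
  rw [tri_out_iff] at h1 h2
  have e : ∀ x : Fin 3 × (Fin 1 → V), ((p.1 = 0 ∧ x.1 = 1 ∧ p.2 0 = x.2 0) ∨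
      (p.1 = 1 ∧ x.1 = 2 ∧ p.2 0 = x.2 0) ∨
      (p.1 = 2 ∧ x.1 = 0 ∧ (p.2 0 = x.2 0 ∨ E (p.2 0) (x.2 0)))) → x = (2, p.2) := by
    intro x hx
    rcases hx with ⟨a, _⟩ | ⟨_, a, b⟩ | ⟨a, _⟩
    · rw [hp] at a; exact absurd a (by decide)
    · refine Prod.ext a (funext fun i => ?_)
      rw [Subsingleton.elim i 0]
      exact b.symm
    · rw [hp] at a; exact absurd a (by decide)
  rw [e q h1, e r h2]

theorem tri_eq_in {p q r : Fin 3 × (Fin 1 → V)} (hp : p.1 = 1) (h1 : tri.out E q p)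
    (h2 : tri.out E r p) : q = r := by
  rw [tri_out_iff] at h1 h2
  have e : ∀ x : Fin 3 × (Fin 1 → V), ((x.1 = 0 ∧ p.1 = 1 ∧ x.2 0 = p.2 0) ∨
      (x.1 = 1 ∧ p.1 = 2 ∧ x.2 0 = p.2 0) ∨
      (x.1 = 2 ∧ p.1 = 0 ∧ (x.2 0 = p.2 0 ∨ E (x.2 0) (p.2 0)))) → x = (0, p.2) := by
    intro x hx
    rcases hx with ⟨a, _, b⟩ | ⟨_, a, b⟩ | ⟨_, a, _⟩
    · refine Prod.ext a (funext fun i => ?_)
      rw [Subsingleton.elim i 0]
      exact b
    · rw [hp] at a; exact absurd a (by decide)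
    · rw [hp] at a; exact absurd a (by decide)
  rw [e q h1, e r h2]

/-- There is no induced directed path with five vertices. -/
theorem tri_P5 : ¬ HasInd P5 (tri.out E) := by
  rintro ⟨f, _, hf⟩
  have arc : ∀ i j : Fin 5, P5 i j → tri.out E (f i) (f j) := fun i j h =>
    (hf i j (by rintro rfl; exact absurd h (by simp [P5]))).1 h
  have no : ∀ i j : Fin 5, i ≠ j → ¬ P5 i j → ¬ tri.out E (f i) (f j) := fun i j h h' h'' =>
    h' ((hf i j h).2 h'')
  have h01 := arc 0 1 (by simp [P5])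
  have h12 := arc 1 2 (by simp [P5])
  have h23 := arc 2 3 (by simp [P5])
  have h34 := arc 3 4 (by simp [P5])
  rcases tri_next h01 with ⟨a, b⟩ | ⟨a, b⟩ | ⟨a, b⟩
  · exact no 2 0 (by decide) (by simp [P5]) (tri_chord a h01 h12)
  · rcases tri_next h12 with ⟨c, d⟩ | ⟨c, d⟩ | ⟨c, d⟩
    · rw [b] at c; exact absurd c (by decide)
    · rw [b] at c; exact absurd c (by decide)
    · exact no 4 2 (by decide) (by simp [P5]) (tri_chord d h23 h34)
  · exact no 3 1 (by decide) (by simp [P5]) (tri_chord b h12 h23)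

/-- There is no induced `3 ← 2 ← 1 ← 0 → 4`. -/
theorem tri_O31 : ¬ HasInd O31 (tri.out E) := by
  rintro ⟨f, hinj, hf⟩
  have arc : ∀ i j : Fin 5, i ≠ j → O31 i j → tri.out E (f i) (f j) := fun i j h h' =>
    (hf i j h).1 h'
  have no : ∀ i j : Fin 5, i ≠ j → ¬ O31 i j → ¬ tri.out E (f i) (f j) := fun i j h h' h'' =>
    h' ((hf i j h).2 h'')
  have h01 := arc 0 1 (by decide) (by simp [O31])
  have h12 := arc 1 2 (by decide) (by simp [O31])
  have h23 := arc 2 3 (by decide) (by simp [O31])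
  have h04 := arc 0 4 (by decide) (by simp [O31])
  rcases tri_next h01 with ⟨a, b⟩ | ⟨a, b⟩ | ⟨a, b⟩
  · exact no 2 0 (by decide) (by simp [O31]) (tri_chord a h01 h12)
  · exact absurd (hinj (tri_eq_out a h01 h04)) (by decide)
  · exact no 3 1 (by decide) (by simp [O31]) (tri_chord b h12 h23)

/-- There is no induced reversal of `O31`. -/
theorem tri_I31 : ¬ HasInd I31 (tri.out E) := by
  rintro ⟨f, hinj, hf⟩
  have arc : ∀ i j : Fin 5, i ≠ j → I31 i j → tri.out E (f i) (f j) := fun i j h h' =>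
    (hf i j h).1 h'
  have no : ∀ i j : Fin 5, i ≠ j → ¬ I31 i j → ¬ tri.out E (f i) (f j) := fun i j h h' h'' =>
    h' ((hf i j h).2 h'')
  have h10 := arc 1 0 (by decide) (by simp [I31, O31])
  have h21 := arc 2 1 (by decide) (by simp [I31, O31])
  have h32 := arc 3 2 (by decide) (by simp [I31, O31])
  have h40 := arc 4 0 (by decide) (by simp [I31, O31])
  rcases tri_next h10 with ⟨a, b⟩ | ⟨a, b⟩ | ⟨a, b⟩
  · exact absurd (hinj (tri_eq_in b h10 h40)) (by decide)
  · rcases tri_next h21 with ⟨c, d⟩ | ⟨c, d⟩ | ⟨c, d⟩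
    · exact no 0 2 (by decide) (by simp [I31, O31]) (tri_chord c h21 h10)
    · rw [a] at d; exact absurd d (by decide)
    · rw [a] at d; exact absurd d (by decide)
  · rcases tri_next h21 with ⟨c, d⟩ | ⟨c, d⟩ | ⟨c, d⟩
    · rw [a] at d; exact absurd d (by decide)
    · rcases tri_next h32 with ⟨e, g⟩ | ⟨e, g⟩ | ⟨e, g⟩
      · exact no 1 3 (by decide) (by simp [I31, O31]) (tri_chord e h32 h21)
      · rw [c] at g; exact absurd g (by decide)
      · rw [c] at g; exact absurd g (by decide)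
    · rw [a] at d; exact absurd d (by decide)

theorem tri_reach (s t : V) :
    Relation.ReflTransGen (tri.out E) ((0 : Fin 3), fun _ : Fin 1 => s) (0, fun _ => t) ↔
      Relation.ReflTransGen E s t := by
  constructor
  · intro h
    have key : ∀ p q : Fin 3 × (Fin 1 → V), Relation.ReflTransGen (tri.out E) p q →
        Relation.ReflTransGen E (p.2 0) (q.2 0) := by
      intro p q hpq
      induction hpq with
      | refl => exact .refl
      | tail _ h1 ih =>
        rw [tri_out_iff] at h1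
        rcases h1 with ⟨_, _, h2⟩ | ⟨_, _, h2⟩ | ⟨_, _, h2 | h2⟩
        · exact h2 ▸ ih
        · exact h2 ▸ ih
        · exact h2 ▸ ih
        · exact ih.tail h2
    exact key _ _ h
  · intro h
    induction h with
    | refl => exact .refl
    | @tail u v _ h1 ih =>
      refine ((ih.tail (b := (0, fun _ => u)) (c := (1, fun _ => u)) ?_).tail
        (c := (2, fun _ => u)) ?_).tail ?_
      · rw [tri_out_iff]; simp
      · rw [tri_out_iff]; simp
      · rw [tri_out_iff]; simp [h1]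

end

/-- **Hardness of the oriented graphs without induced `P5`, `O31`, `I31`.** -/
theorem tri_into : tri.Into fun _ F =>
    Oriented F ∧ ¬ HasInd P5 F ∧ ¬ HasInd O31 F ∧ ¬ HasInd I31 F := by
  intro V _ _ E
  have ex : ∀ (s : V) (x : Fin 1 → V), Sat (ordStr E) (.eq 0 1 : Fml OrdVoc (1 + 1))
      (Fin.append ![s] x) ↔ x = fun _ => s := by
    intro s x
    have h0 : (Fin.append ![s] x : Fin (1 + 1) → V) 0 = s := rfl
    have h1 : (Fin.append ![s] x : Fin (1 + 1) → V) 1 = x 0 := rfl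
    simp only [Sat, h0, h1]
    constructor
    · intro h
      funext i
      rw [Subsingleton.elim i 0]
      exact h.symm
    · intro h
      rw [h]
  refine ⟨⟨tri_oriented, tri_P5, tri_O31, tri_I31⟩, ?_, ?_, ?_⟩
  · intro s
    exact ⟨fun _ => s, (ex s _).2 rfl, fun y hy => (ex s y).1 hy⟩
  · intro s
    exact ⟨fun _ => s, (ex s _).2 rfl, fun y hy => (ex s y).1 hy⟩
  · intro s t x y hx hy
    rw [(ex s x).1 hx, (ex t y).1 hy]
    exact tri_reach s t

end Pool.Agent.Lib.Pe46137T
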